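import Mathlib

set_option autoImplicit false

open Finset

namespace Pool.Agent.K6.helper20.Illum

/-- sign bookkeeping for the three-by-three argument -/
lemma sgn_aux (p q b0 b1 b2 : ℝ)
    (A01 : (0 < q ∨ 0 < b0 ∨ 0 < b1) ∧ (q < 0 ∨ b0 < 0 ∨ b1 < 0))
    (A02 : (0 < q ∨ 0 < b0 ∨ 0 < b2) ∧ (q < 0 ∨ b0 < 0 ∨ b2 < 0))
    (A12 : (0 < q ∨ 0 < b1 ∨ 0 < b2) ∧ (q < 0 ∨ b1 < 0 ∨ b2 < 0))
    (B01 : (0 < p ∨ 0 < b0 ∨ 0 < b1) ∧ (p < 0 ∨ b0 < 0 ∨ b1 < 0))
    (B02 : (0 < p ∨ 0 < b0 ∨ 0 < b2) ∧ (p < 0 ∨ b0 < 0 ∨ b2 < 0))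
    (B12 : (0 < p ∨ 0 < b1 ∨ 0 < b2) ∧ (p < 0 ∨ b1 < 0 ∨ b2 < 0)) :
    0 < p * q := by
  rcases lt_trichotomy p 0 with hp | hp | hp <;> rcases lt_trichotomy q 0 with hq | hq | hq
  · exact mul_pos_of_neg_of_neg hp hq
  · exfalso; grind
  · exfalso; grind
  · exfalso; grind
  · exfalso; grind
  · exfalso; grind
  · exfalso; grind
  · exfalso; grind
  · exact mul_pos hp hq

/-- four positive weights, zero weighted sum, not all zero: both signs occur -/
lemma four (a b c d p q r s : ℝ) (hp : 0 < p) (hq : 0 < q) (hr : 0 < r) (hs : 0 < s)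
    (h : a * p + b * q + c * r + d * s = 0) (hne : ¬ (a = 0 ∧ b = 0 ∧ c = 0 ∧ d = 0)) :
    (0 < a ∨ 0 < b ∨ 0 < c ∨ 0 < d) ∧ (a < 0 ∨ b < 0 ∨ c < 0 ∨ d < 0) := by
  constructor
  · by_contra hcon
    push Not at hcon
    obtain ⟨ha, hb, hc, hd⟩ := hcon
    have h1 : a * p ≤ 0 := mul_nonpos_of_nonpos_of_nonneg ha hp.le
    have h2 : b * q ≤ 0 := mul_nonpos_of_nonpos_of_nonneg hb hq.le
    have h3 : c * r ≤ 0 := mul_nonpos_of_nonpos_of_nonneg hc hr.le
    have h4 : d * s ≤ 0 := mul_nonpos_of_nonpos_of_nonneg hd hs.le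
    apply hne
    refine ⟨?_, ?_, ?_, ?_⟩
    · have : a * p = 0 := by linarith
      exact (mul_eq_zero.1 this).resolve_right hp.ne'
    · have : b * q = 0 := by linarith
      exact (mul_eq_zero.1 this).resolve_right hq.ne'
    · have : c * r = 0 := by linarith
      exact (mul_eq_zero.1 this).resolve_right hr.ne'
    · have : d * s = 0 := by linarith
      exact (mul_eq_zero.1 this).resolve_right hs.ne'
  · by_contra hcon
    push Not at hcon
    obtain ⟨ha, hb, hc, hd⟩ := hcon
    have h1 : 0 ≤ a * p := mul_nonneg ha hp.le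
    have h2 : 0 ≤ b * q := mul_nonneg hb hq.le
    have h3 : 0 ≤ c * r := mul_nonneg hc hr.le
    have h4 : 0 ≤ d * s := mul_nonneg hd hs.le
    apply hne
    refine ⟨?_, ?_, ?_, ?_⟩
    · have : a * p = 0 := by linarith
      exact (mul_eq_zero.1 this).resolve_right hp.ne'
    · have : b * q = 0 := by linarith
      exact (mul_eq_zero.1 this).resolve_right hq.ne'
    · have : c * r = 0 := by linarith
      exact (mul_eq_zero.1 this).resolve_right hr.ne'
    · have : d * s = 0 := by linarith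
      exact (mul_eq_zero.1 this).resolve_right hs.ne'

section K33

variable {E : Type*} [AddCommGroup E] [Module ℝ E]

/-- an affine dependence among the six points -/
def Dep (x a : Fin 3 → E) (α β : Fin 3 → ℝ) : Prop :=
  ∑ i, α i + ∑ i, β i = 0 ∧ ∑ i, α i • x i + ∑ i, β i • a i = 0

lemma dep_eq {x a : Fin 3 → E} {α β : Fin 3 → ℝ} (h : Dep x a α β) (g : E →ₗ[ℝ] ℝ) (c : ℝ) :
    ∑ i, α i * (c - g (x i)) + ∑ i, β i * (c - g (a i)) = 0 := by
  have h2 := congrArg g h.2
  simp only [map_add, map_sum, map_smul, smul_eq_mul, map_zero] at h2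
  have h1 := h.1
  have e1 : ∑ i, α i * (c - g (x i)) = (∑ i, α i) * c - ∑ i, α i * g (x i) := by
    rw [sum_mul, ← sum_sub_distrib]; exact sum_congr rfl fun i _ => by ring
  have e2 : ∑ i, β i * (c - g (a i)) = (∑ i, β i) * c - ∑ i, β i * g (a i) := by
    rw [sum_mul, ← sum_sub_distrib]; exact sum_congr rfl fun i _ => by ring
  rw [e1, e2]
  have : (∑ i, α i) * c + (∑ i, β i) * c = 0 := by rw [← add_mul, h1, zero_mul]
  linarith

/-- both signs occur off every pair -/
lemma both {x a : Fin 3 → E} {f : Fin 3 → Fin 3 → E →ₗ[ℝ] ℝ}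
    (h1 : ∀ i j, f i j (a j) = f i j (x i))
    (h2 : ∀ i j k, k ≠ i → f i j (x k) < f i j (x i))
    (h3 : ∀ i j l, l ≠ j → f i j (a l) < f i j (x i))
    {α β : Fin 3 → ℝ} (h : Dep x a α β) (hne : ¬ (α = 0 ∧ β = 0)) (i j : Fin 3) :
    (0 < α (i+1) ∨ 0 < α (i+2) ∨ 0 < β (j+1) ∨ 0 < β (j+2)) ∧
    (α (i+1) < 0 ∨ α (i+2) < 0 ∨ β (j+1) < 0 ∨ β (j+2) < 0) := by
  have hsum : ∀ (F : Fin 3 → ℝ) (k : Fin 3), ∑ i, F i = F k + F (k+1) + F (k+2) := by
    intro F k
    rw [Fin.sum_univ_three]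
    fin_cases k
    · rfl
    · simp only [Fin.reduceFinMk]
      show F 0 + F 1 + F 2 = F 1 + F 2 + F 0
      ring
    · show F 0 + F 1 + F 2 = F 2 + F 0 + F 1
      ring
  have hk1 : ∀ k : Fin 3, k + 1 ≠ k := by decide
  have hk2 : ∀ k : Fin 3, k + 2 ≠ k := by decide
  have hkf : ∀ k l : Fin 3, l = k ∨ l = k + 1 ∨ l = k + 2 := by decide
  have hk3 : ∀ k : Fin 3, k ≠ k + 1 := by decide
  have e := dep_eq h (f i j) (f i j (x i))
  rw [hsum _ i, hsum _ j] at e
  refine four (α (i+1)) (α (i+2)) (β (j+1)) (β (j+2)) (f i j (x i) - f i j (x (i+1)))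
    (f i j (x i) - f i j (x (i+2))) (f i j (x i) - f i j (a (j+1)))
    (f i j (x i) - f i j (a (j+2))) ?_ ?_ ?_ ?_ ?_ ?_
  · exact sub_pos.2 (h2 i j _ (hk1 i))
  · exact sub_pos.2 (h2 i j _ (hk2 i))
  · exact sub_pos.2 (h3 i j _ (hk1 j))
  · exact sub_pos.2 (h3 i j _ (hk2 j))
  · rw [h1 i j] at e
    linarith
  · rintro ⟨z1, z2, z3, z4⟩
    -- use the pair `(i+1, j)`
    have e' := dep_eq h (f (i+1) j) (f (i+1) j (x (i+1)))
    rw [hsum _ i, hsum _ j, z1, z2, z3, z4, h1 (i+1) j] at e'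
    have hpos : 0 < f (i+1) j (x (i+1)) - f (i+1) j (x i) := sub_pos.2 (h2 (i+1) j i (hk3 i))
    have hz : α i * (f (i+1) j (x (i+1)) - f (i+1) j (x i)) = 0 := by linarith
    have hai : α i = 0 := (mul_eq_zero.1 hz).resolve_right hpos.ne'
    have hs := h.1
    rw [hsum _ i, hsum _ j, z1, z2, z3, z4, hai] at hs
    have hbj : β j = 0 := by linarith
    apply hne
    constructor
    · funext l
      rcases hkf i l with rfl | rfl | rfl
      · exact hai
      · exact z1
      · exact z2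
    · funext l
      rcases hkf j l with rfl | rfl | rfl
      · exact hbj
      · exact z3
      · exact z4

lemma same_sign {x a : Fin 3 → E} {f : Fin 3 → Fin 3 → E →ₗ[ℝ] ℝ}
    (h1 : ∀ i j, f i j (a j) = f i j (x i))
    (h2 : ∀ i j k, k ≠ i → f i j (x k) < f i j (x i))
    (h3 : ∀ i j l, l ≠ j → f i j (a l) < f i j (x i))
    {α β : Fin 3 → ℝ} (h : Dep x a α β) (hne : ¬ (α = 0 ∧ β = 0)) (i : Fin 3) (hi : α i = 0) :
    0 < α (i+1) * α (i+2) := by
  have H := both h1 h2 h3 h hne
  have e1 : ∀ i : Fin 3, i + 1 + 1 = i + 2 := by decide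
  have e2 : ∀ i : Fin 3, i + 1 + 2 = i := by decide
  have e3 : ∀ i : Fin 3, i + 2 + 1 = i := by decide
  have e4 : ∀ i : Fin 3, i + 2 + 2 = i + 1 := by decide
  have g1 := fun j => H (i+1) j
  have g2 := fun j => H (i+2) j
  rw [e1, e2] at g1
  rw [e3, e4] at g2
  rw [hi] at g1 g2
  simp only [lt_irrefl, false_or] at g1 g2
  have a0 := g1 0
  have a1 := g1 1
  have a2 := g1 2
  have b0 := g2 0
  have b1 := g2 1
  have b2 := g2 2
  have z1 : (0 : Fin 3) + 1 = 1 := rfl
  have z2 : (0 : Fin 3) + 2 = 2 := rfl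
  have z3 : (1 : Fin 3) + 1 = 2 := rfl
  have z4 : (1 : Fin 3) + 2 = 0 := rfl
  have z5 : (2 : Fin 3) + 1 = 0 := rfl
  have z6 : (2 : Fin 3) + 2 = 1 := rfl
  rw [z1, z2] at a0 b0
  rw [z3, z4] at a1 b1
  rw [z5, z6] at a2 b2
  refine sgn_aux _ _ (β 0) (β 1) (β 2) a2 ?_ a0 b2 ?_ b0
  · refine ⟨?_, ?_⟩
    · rcases a1.1 with h | h | h
      · exact Or.inl h
      · exact Or.inr (Or.inr h)
      · exact Or.inr (Or.inl h)
    · rcases a1.2 with h | h | h
      · exact Or.inl h
      · exact Or.inr (Or.inr h)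
      · exact Or.inr (Or.inl h)
  · refine ⟨?_, ?_⟩
    · rcases b1.1 with h | h | h
      · exact Or.inl h
      · exact Or.inr (Or.inr h)
      · exact Or.inr (Or.inl h)
    · rcases b1.2 with h | h | h
      · exact Or.inl h
      · exact Or.inr (Or.inr h)
      · exact Or.inr (Or.inl h)

/-- a nonzero affine dependence with one prescribed zero -/
lemma exists_dep [Module.Finite ℝ E] (hE : Module.finrank ℝ E = 3) (x a : Fin 3 → E) (i : Fin 3) :
    ∃ α β : Fin 3 → ℝ, Dep x a α β ∧ ¬ (α = 0 ∧ β = 0) ∧ α i = 0 := by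
  let L : (Fin 3 → ℝ) × (Fin 3 → ℝ) →ₗ[ℝ] (E × ℝ) × ℝ :=
    { toFun := fun v => ((∑ i, v.1 i • x i + ∑ i, v.2 i • a i, ∑ i, v.1 i + ∑ i, v.2 i), v.1 i)
      map_add' := by
        intro u v
        simp only [Prod.fst_add, Prod.snd_add, Pi.add_apply, add_smul, sum_add_distrib,
          Prod.mk_add_mk, Prod.mk.injEq, and_true]
        constructor
        · abel
        · ring
      map_smul' := by
        intro c u
        simp only [Prod.smul_fst, Prod.smul_snd, Pi.smul_apply, smul_eq_mul, RingHom.id_apply,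
          Prod.smul_mk, smul_add, smul_sum, mul_smul, mul_sum, mul_add] }
  have hfin : Module.finrank ℝ ((E × ℝ) × ℝ) < Module.finrank ℝ ((Fin 3 → ℝ) × (Fin 3 → ℝ)) := by
    rw [Module.finrank_prod, Module.finrank_prod, Module.finrank_prod, hE]
    simp
  have hker := LinearMap.ker_ne_bot_of_finrank_lt (f := L) hfin
  obtain ⟨v, hv, hv0⟩ := Submodule.exists_mem_ne_zero_of_ne_bot hker
  have hv' : L v = 0 := hv
  have e1 : ∑ i, v.1 i • x i + ∑ i, v.2 i • a i = 0 := congrArg (fun z => z.1.1) hv'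
  have e2 : ∑ i, v.1 i + ∑ i, v.2 i = 0 := congrArg (fun z => z.1.2) hv'
  have e3 : v.1 i = 0 := congrArg (fun z => z.2) hv'
  exact ⟨v.1, v.2, ⟨e2, e1⟩, fun h => hv0 (Prod.ext h.1 h.2), e3⟩

/-- Three points `x i` and three points `a j` in a three-dimensional space: it is impossible that
every pair `x i, a j` is cut out of the six points by a supporting plane. -/
lemma k33 [Module.Finite ℝ E] (hE : Module.finrank ℝ E = 3)
    (x a : Fin 3 → E) (f : Fin 3 → Fin 3 → E →ₗ[ℝ] ℝ)
    (h1 : ∀ i j, f i j (a j) = f i j (x i))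
    (h2 : ∀ i j k, k ≠ i → f i j (x k) < f i j (x i))
    (h3 : ∀ i j l, l ≠ j → f i j (a l) < f i j (x i)) : False := by
  obtain ⟨α, β, hd, hne, h0⟩ := exists_dep hE x a 0
  obtain ⟨α', β', hd', hne', h0'⟩ := exists_dep hE x a 1
  have s1 : 0 < α 1 * α 2 := same_sign h1 h2 h3 hd hne 0 h0
  have s2 : 0 < α' 2 * α' 0 := same_sign h1 h2 h3 hd' hne' 1 h0'
  -- the combination vanishing at `2`
  have hd2 : Dep x a (fun i => α' 2 * α i - α 2 * α' i) (fun i => α' 2 * β i - α 2 * β' i) := by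
    constructor
    · simp only [sum_sub_distrib, ← mul_sum]
      have := hd.1
      have := hd'.1
      have e : α' 2 * ∑ i, α i - α 2 * ∑ i, α' i + (α' 2 * ∑ i, β i - α 2 * ∑ i, β' i) =
        α' 2 * (∑ i, α i + ∑ i, β i) - α 2 * (∑ i, α' i + ∑ i, β' i) := by ring
      rw [e, hd.1, hd'.1]; ring
    · simp only [sub_smul, sum_sub_distrib, mul_smul, ← smul_sum]
      have e : α' 2 • ∑ i, α i • x i - α 2 • ∑ i, α' i • x i +
          (α' 2 • ∑ i, β i • a i - α 2 • ∑ i, β' i • a i) =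
        α' 2 • (∑ i, α i • x i + ∑ i, β i • a i) - α 2 • (∑ i, α' i • x i + ∑ i, β' i • a i) := by
        rw [smul_add, smul_add]; abel
      rw [e, hd.2, hd'.2]; simp
  have hz : (fun i => α' 2 * α i - α 2 * α' i) 2 = 0 := by simp; ring
  have hα2 : α 2 ≠ 0 := by
    intro h
    rw [h] at s1
    simp at s1
  have hα0' : α' 0 ≠ 0 := by
    intro h
    rw [h] at s2
    simp at s2
  have hne2 : ¬ ((fun i => α' 2 * α i - α 2 * α' i) = 0 ∧ (fun i => α' 2 * β i - α 2 * β' i) = 0) := by
    rintro ⟨h, -⟩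
    have := congrFun h 0
    simp only [h0, mul_zero, zero_sub, Pi.zero_apply, neg_eq_zero] at this
    exact (mul_ne_zero hα2 hα0') this
  have s3 := same_sign h1 h2 h3 hd2 hne2 2 hz
  have z5 : (2 : Fin 3) + 1 = 0 := rfl
  have z6 : (2 : Fin 3) + 2 = 1 := rfl
  rw [z5, z6] at s3
  simp only [h0, h0', mul_zero, zero_sub, sub_zero] at s3
  nlinarith [mul_pos s1 s2]

end K33

/-- Free sets for set mappings on pairs -/
lemma free {α : Type*} [Fintype α] [DecidableEq α] (B : α → α → Finset α) (b : ℕ)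
    (hB : ∀ u v, (B u v).card ≤ b) (h : 120 * b < Fintype.card α) :
    ∃ g : Fin 6 → α, ∀ p q r : Fin 6, p ≠ r → q ≠ r → p ≠ q → g r ∉ B (g p) (g q) := by
  classical
  by_contra hcon
  push Not at hcon
  let T : Finset (Fin 6 × Fin 6 × Fin 6) :=
    univ.filter (fun t => t.1 ≠ t.2.2 ∧ t.2.1 ≠ t.2.2 ∧ t.1 ≠ t.2.1)
  have hT : T.card = 120 := by decide +kernel
  let bad : Fin 6 × Fin 6 × Fin 6 → Finset (Fin 6 → α) :=
    fun t => univ.filter (fun g => g t.2.2 ∈ B (g t.1) (g t.2.1))
  have hcov : (univ : Finset (Fin 6 → α)) ⊆ T.biUnion bad := by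
    intro g _
    obtain ⟨p, q, r, h1, h2, h3, h4⟩ := hcon g
    rw [mem_biUnion]
    exact ⟨(p, q, r), by simp only [T, mem_filter, mem_univ, true_and]; exact ⟨h1, h2, h3⟩,
      by simp only [bad, mem_filter, mem_univ, true_and]; exact h4⟩
  have hbad : ∀ t ∈ T, (bad t).card ≤ b * Fintype.card α ^ 5 := by
    rintro ⟨p, q, r⟩ ht
    simp only [T, mem_filter, mem_univ, true_and] at ht
    obtain ⟨h1, h2, h3⟩ := ht
    obtain ⟨p', hp'⟩ := Fin.exists_succAbove_eq h1
    obtain ⟨q', hq'⟩ := Fin.exists_succAbove_eq h2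
    have key := card_le_mul_card_image (f := fun g : Fin 6 → α => fun k : Fin 5 => g (r.succAbove k))
      (bad (p, q, r)) b (by
        intro w _
        refine le_trans ?_ (hB (w p') (w q'))
        refine card_le_card_of_injOn (fun g => g r) ?_ ?_
        · intro g hg
          simp only [bad, coe_filter, mem_filter, mem_univ, true_and, Set.mem_ofPred_eq] at hg
          obtain ⟨hg1, hg2⟩ := hg
          have e1 : g p = w p' := by rw [← hg2]; simp only [hp']
          have e2 : g q = w q' := by rw [← hg2]; simp only [hq']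
          rw [← e1, ← e2]
          exact hg1
        · intro g hg g' hg' hgg
          simp only [bad, coe_filter, mem_filter, mem_univ, true_and, Set.mem_ofPred_eq] at hg hg'
          funext k
          by_cases hk : k = r
          · rw [hk]; exact hgg
          · obtain ⟨k', hk'⟩ := Fin.exists_succAbove_eq hk
            have e1 := congrFun hg.2 k'
            have e2 := congrFun hg'.2 k'
            simp only [hk'] at e1 e2
            rw [e1, e2])
    refine key.trans (Nat.mul_le_mul_left _ ?_)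
    refine (card_le_univ _).trans ?_
    rw [Fintype.card_fun, Fintype.card_fin]
  have h1 : Fintype.card α ^ 6 ≤ 120 * (b * Fintype.card α ^ 5) := by
    calc Fintype.card α ^ 6 = (univ : Finset (Fin 6 → α)).card := by
          rw [card_univ, Fintype.card_fun, Fintype.card_fin]
      _ ≤ (T.biUnion bad).card := card_le_card hcov
      _ ≤ ∑ t ∈ T, (bad t).card := card_biUnion_le
      _ ≤ ∑ _t ∈ T, b * Fintype.card α ^ 5 := sum_le_sum hbad
      _ = 120 * (b * Fintype.card α ^ 5) := by rw [sum_const, hT, smul_eq_mul]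
  have hpos : 0 < Fintype.card α ^ 5 := by
    have : 0 < Fintype.card α := by omega
    positivity
  have h2 : Fintype.card α * Fintype.card α ^ 5 ≤ (120 * b) * Fintype.card α ^ 5 := by
    calc Fintype.card α * Fintype.card α ^ 5 = Fintype.card α ^ 6 := by ring
      _ ≤ _ := h1
      _ = _ := by ring
  have h3 := Nat.le_of_mul_le_mul_right h2 hpos
  omega

section Cfg

variable {E : Type*} [AddCommGroup E] [Module ℝ E] {ι : Type*}

/-- Points `x i`, `a i` and supporting planes `f i j = f i j (x i)` through `x i` and `a j`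
(`i ≠ j`), none of which contains both `x k` and `a k`. -/
structure Cfg (x a : ι → E) (f : ι → ι → E →ₗ[ℝ] ℝ) : Prop where
  e : ∀ i j, i ≠ j → f i j (a j) = f i j (x i)
  X : ∀ i j, i ≠ j → ∀ k, f i j (x k) ≤ f i j (x i)
  A : ∀ i j, i ≠ j → ∀ k, f i j (a k) ≤ f i j (x i)
  N : ∀ i j, i ≠ j → ∀ k, f i j (x k) = f i j (x i) → f i j (a k) = f i j (x i) → False

variable {x a : ι → E} {f : ι → ι → E →ₗ[ℝ] ℝ}

lemma Cfg.x_ne (h : Cfg x a f) {l p q : ι} (hlp : l ≠ p) (t : ℝ) (ht0 : 0 ≤ t) (ht1 : t < 1) :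
    x l ≠ AffineMap.lineMap (x p) (x q) t := by
  intro he
  have h1 := h.X l p hlp p
  have h2 := h.X l p hlp q
  have h3 : f l p (x l) = (1 - t) * f l p (x p) + t * f l p (x q) := by
    conv_lhs => rw [he]
    rw [AffineMap.lineMap_apply_module, map_add, map_smul, map_smul, smul_eq_mul, smul_eq_mul]
  have h4 : f l p (x p) = f l p (x l) := by
    apply le_antisymm h1
    have : t * f l p (x q) ≤ t * f l p (x l) := mul_le_mul_of_nonneg_left h2 ht0
    have h5 : (1 - t) * f l p (x l) ≤ (1 - t) * f l p (x p) := by nlinarith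
    exact le_of_mul_le_mul_left h5 (by linarith)
  exact h.N l p hlp p h4 (h.e l p hlp)

lemma Cfg.a_ne (h : Cfg x a f) {l p q : ι} (hlp : l ≠ p) (t : ℝ) (ht0 : 0 ≤ t) (ht1 : t < 1) :
    a l ≠ AffineMap.lineMap (a p) (a q) t := by
  intro he
  have h1 := h.A p l hlp.symm p
  have h2 := h.A p l hlp.symm q
  have h0 := h.e p l hlp.symm
  have h3 : f p l (a l) = (1 - t) * f p l (a p) + t * f p l (a q) := by
    conv_lhs => rw [he]
    rw [AffineMap.lineMap_apply_module, map_add, map_smul, map_smul, smul_eq_mul, smul_eq_mul]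
  have h4 : f p l (a p) = f p l (x p) := by
    apply le_antisymm h1
    have : t * f p l (a q) ≤ t * f p l (x p) := mul_le_mul_of_nonneg_left h2 ht0
    have h5 : (1 - t) * f p l (x p) ≤ (1 - t) * f p l (a p) := by nlinarith
    exact le_of_mul_le_mul_left h5 (by linarith)
  exact h.N p l hlp.symm p rfl h4

lemma not_col (y : ι → E)
    (hy : ∀ l p q : ι, l ≠ p → ∀ t : ℝ, 0 ≤ t → t < 1 → y l ≠ AffineMap.lineMap (y p) (y q) t)
    {i j k : ι} (hij : i ≠ j) (hjk : j ≠ k) (hki : k ≠ i) :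
    ¬ Collinear ℝ ({y i, y j, y k} : Set E) := by
  have key : ∀ p l q : ι, l ≠ p → l ≠ q → ¬ Wbtw ℝ (y p) (y l) (y q) := by
    rintro p l q hlp hlq ⟨t, ⟨ht0, ht1⟩, ht⟩
    rcases lt_or_eq_of_le ht1 with h | h
    · exact hy l p q hlp t ht0 h ht.symm
    · rw [h, AffineMap.lineMap_apply_one] at ht
      refine hy l q l hlq 0 le_rfl zero_lt_one ?_
      rw [AffineMap.lineMap_apply_zero, ht]
  intro hc
  rcases hc.wbtw_or_wbtw_or_wbtw with h | h | h
  · exact key i j k hij.symm hjk h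
  · exact key j k i hjk.symm hki h
  · exact key k i j hki.symm hij h

/-- two planes through three non-collinear points coincide -/
lemma plane_eq [Module.Finite ℝ E] (hE : Module.finrank ℝ E = 3) {p q r : E}
    (hc : ¬ Collinear ℝ ({p, q, r} : Set E)) (g g' : E →ₗ[ℝ] ℝ) (c c' : ℝ) (hg : g ≠ 0)
    (h1 : g p = c) (h2 : g q = c) (h3 : g r = c) (h1' : g' p = c') (h2' : g' q = c')
    (h3' : g' r = c') (y : E) (hy : g y = c) : g' y = c' := by
  have hai : AffineIndependent ℝ ![p, q, r] := affineIndependent_iff_not_collinear_set.2 hc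
  have hfr : Module.finrank ℝ (vectorSpan ℝ (Set.range ![p, q, r])) = 2 :=
    hai.finrank_vectorSpan (by simp)
  have hle : ∀ (φ : E →ₗ[ℝ] ℝ) (d : ℝ), φ p = d → φ q = d → φ r = d →
      vectorSpan ℝ (Set.range ![p, q, r]) ≤ LinearMap.ker φ := by
    intro φ d e1 e2 e3
    rw [vectorSpan_def, Submodule.span_le]
    rintro _ ⟨_, ⟨i, rfl⟩, _, ⟨j, rfl⟩, rfl⟩
    have : ∀ i, φ (![p, q, r] i) = d := by
      intro i
      fin_cases i
      · exact e1
      · exact e2
      · exact e3
    simp only [SetLike.mem_coe, LinearMap.mem_ker, vsub_eq_sub, map_sub, this, sub_self]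
  have hker : Module.finrank ℝ (LinearMap.ker g) = 2 := by
    have := LinearMap.finrank_range_add_finrank_ker g
    have hr : LinearMap.range g = ⊤ := LinearMap.range_eq_top.2 (LinearMap.surjective hg)
    rw [hr, finrank_top, hE] at this
    simp at this
    omega
  have heq : vectorSpan ℝ (Set.range ![p, q, r]) = LinearMap.ker g :=
    Submodule.eq_of_le_of_finrank_eq (hle g c h1 h2 h3) (by rw [hfr, hker])
  have hmem : y - p ∈ LinearMap.ker g := by
    rw [LinearMap.mem_ker, map_sub, hy, h1, sub_self]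
  rw [← heq] at hmem
  have := hle g' c' h1' h2' h3' hmem
  rw [LinearMap.mem_ker, map_sub, h1'] at this
  linarith

variable [Module.Finite ℝ E]

omit [Module.Finite ℝ E] in
lemma Cfg.f_ne (h : Cfg x a f) {i j : ι} (hij : i ≠ j) : f i j ≠ 0 := by
  intro h0
  exact h.N i j hij i rfl (by rw [h0]; rfl)

open scoped Classical in
/-- indices of the points `x k`, `k ∈ S`, on the plane of the pair `i, j` -/
noncomputable def Xs (x : ι → E) (f : ι → ι → E →ₗ[ℝ] ℝ) (S : Finset ι) (i j : ι) : Finset ι :=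
  S.filter (fun k => f i j (x k) = f i j (x i))

open scoped Classical in
/-- indices of the points `a k`, `k ∈ S`, on the plane of the pair `i, j` -/
noncomputable def As (x a : ι → E) (f : ι → ι → E →ₗ[ℝ] ℝ) (S : Finset ι) (i j : ι) : Finset ι :=
  S.filter (fun k => f i j (a k) = f i j (x i))

/-- if all planes contain few of the points, six indices give a three-by-three configuration -/
lemma Cfg.finish (hE : Module.finrank ℝ E = 3) (h : Cfg x a f) (S : Finset ι) (b : ℕ)
    (hb : ∀ i ∈ S, ∀ j ∈ S, i ≠ j → (Xs x f S i j).card + (As x a f S i j).card ≤ b)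
    (hS : 120 * (b + 2) < S.card) : False := by
  classical
  let B : S → S → Finset S := fun u v =>
    if u = v then {u} else
      {u, v} ∪ univ.filter (fun k : S => (k : ι) ∈ Xs x f S u v ∪ As x a f S u v)
  have hB : ∀ u v, (B u v).card ≤ b + 2 := by
    intro u v
    by_cases huv : u = v
    · simp only [B, huv, if_true, card_singleton]
      omega
    · simp only [B, huv, if_false]
      refine (card_union_le _ _).trans ?_
      have h1 : ({u, v} : Finset S).card ≤ 2 := card_le_two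
      have h2 : (univ.filter (fun k : S => (k : ι) ∈ Xs x f S u v ∪ As x a f S u v)).card ≤ b := by
        calc (univ.filter (fun k : S => (k : ι) ∈ Xs x f S u v ∪ As x a f S u v)).card
            ≤ (Xs x f S u v ∪ As x a f S u v).card := by
              refine card_le_card_of_injOn (fun k => (k : ι)) ?_ ?_
              · intro k hk
                simp only [coe_filter, mem_univ, true_and, Set.mem_ofPred_eq] at hk
                exact hk
              · intro k _ k' _ hkk
                exact Subtype.ext hkk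
          _ ≤ (Xs x f S u v).card + (As x a f S u v).card := card_union_le _ _
          _ ≤ b := hb u u.2 v v.2 (fun hh => huv (Subtype.ext hh))
      omega
  obtain ⟨g, hg⟩ := free B (b + 2) hB (by rw [Fintype.card_coe]; exact hS)
  have hinj : ∀ p r : Fin 6, p ≠ r → g p ≠ g r := by
    intro p r hpr
    obtain ⟨q, hq1, hq2⟩ : ∃ q : Fin 6, q ≠ r ∧ p ≠ q := by
      revert p r; decide
    have := hg p q r hpr hq1 hq2
    intro hh
    apply this
    simp only [B]
    split_ifs
    · rw [mem_singleton, hh]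
    · rw [mem_union, mem_insert]
      exact Or.inl (Or.inl hh.symm)
  have hfree : ∀ p q r : Fin 6, p ≠ r → q ≠ r → p ≠ q →
      f (g p) (g q) (x (g r)) ≠ f (g p) (g q) (x (g p)) ∧
      f (g p) (g q) (a (g r)) ≠ f (g p) (g q) (x (g p)) := by
    intro p q r h1 h2 h3
    have := hg p q r h1 h2 h3
    simp only [B, if_neg (hinj p q h3), mem_union, mem_filter, mem_univ, true_and, Xs, As,
      not_or, not_and] at this
    exact ⟨this.2.1 (g r).2, this.2.2 (g r).2⟩
  -- split the six indices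
  let I : Fin 3 → Fin 6 := fun i => ⟨i, by omega⟩
  let J : Fin 3 → Fin 6 := fun i => ⟨i + 3, by omega⟩
  have hIJ : ∀ i j : Fin 3, I i ≠ J j := by
    intro i j hh
    have := congrArg Fin.val hh
    simp only [I, J] at this
    omega
  have hII : ∀ i k : Fin 3, k ≠ i → I i ≠ I k := by
    intro i k hk hh
    have := congrArg Fin.val hh
    simp only [I] at this
    exact hk (Fin.ext this.symm)
  have hJJ : ∀ i k : Fin 3, k ≠ i → J i ≠ J k := by
    intro i k hk hh
    have := congrArg Fin.val hh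
    simp only [J] at this
    exact hk (Fin.ext (by omega))
  have hv : ∀ i j : Fin 3, ((g (I i) : S) : ι) ≠ ((g (J j) : S) : ι) := fun i j hh =>
    hinj _ _ (hIJ i j) (Subtype.ext hh)
  refine k33 hE (fun i => x (g (I i))) (fun j => a (g (J j)))
    (fun i j => f (g (I i)) (g (J j))) ?_ ?_ ?_
  · intro i j
    exact h.e _ _ (hv i j)
  · intro i j k hk
    refine lt_of_le_of_ne (h.X _ _ (hv i j) _) ?_
    exact (hfree (I i) (J j) (I k) (hII i k hk) (hIJ k j).symm (hIJ i j)).1
  · intro i j l hl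
    refine lt_of_le_of_ne (h.A _ _ (hv i j) _) ?_
    exact (hfree (I i) (J j) (J l) (hIJ i l) (hJJ j l hl) (hIJ i j)).2

/-- planes of two pairs sharing three `x`-points agree -/
lemma Cfg.shareX (hE : Module.finrank ℝ E = 3) (h : Cfg x a f) {i j i' j' : ι} (hij : i ≠ j) (W : Finset ι) (hcard : 2 < W.card)
    (hW : ∀ k ∈ W, f i j (x k) = f i j (x i) ∧ f i' j' (x k) = f i' j' (x i'))
    (y : E) (hy : f i j y = f i j (x i)) : f i' j' y = f i' j' (x i') := by
  obtain ⟨k1, m1, k2, m2, k3, m3, n12, n13, n23⟩ := two_lt_card.1 hcard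
  exact plane_eq hE (not_col x (fun l p q hlp t ht0 ht1 => h.x_ne hlp t ht0 ht1) n12 n23 n13.symm)
    (f i j) (f i' j') _ _ (h.f_ne hij) (hW _ m1).1 (hW _ m2).1 (hW _ m3).1 (hW _ m1).2 (hW _ m2).2
    (hW _ m3).2 y hy

/-- planes of two pairs sharing three `a`-points agree -/
lemma Cfg.shareA (hE : Module.finrank ℝ E = 3) (h : Cfg x a f) {i j i' j' : ι} (hij : i ≠ j) (W : Finset ι) (hcard : 2 < W.card)
    (hW : ∀ k ∈ W, f i j (a k) = f i j (x i) ∧ f i' j' (a k) = f i' j' (x i'))
    (y : E) (hy : f i j y = f i j (x i)) : f i' j' y = f i' j' (x i') := by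
  obtain ⟨k1, m1, k2, m2, k3, m3, n12, n13, n23⟩ := two_lt_card.1 hcard
  exact plane_eq hE (not_col a (fun l p q hlp t ht0 ht1 => h.a_ne hlp t ht0 ht1) n12 n23 n13.symm)
    (f i j) (f i' j') _ _ (h.f_ne hij) (hW _ m1).1 (hW _ m2).1 (hW _ m3).1 (hW _ m1).2 (hW _ m2).2
    (hW _ m3).2 y hy

lemma Cfg.stage2 (hE : Module.finrank ℝ E = 3) (h : Cfg x a f) (S : Finset ι) (b : ℕ)
    (hb : ∀ i ∈ S, ∀ j ∈ S, i ≠ j → (Xs x f S i j).card ≤ b)
    (hS : 120 * (b + (120 * (b + 4) + 1) + 2) < S.card) : False := by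
  classical
  by_cases hbig : ∃ i ∈ S, ∃ j ∈ S, i ≠ j ∧ 120 * (b + 4) + 1 < (As x a f S i j).card
  · obtain ⟨i1, -, j1, -, hij1, hc⟩ := hbig
    refine h.finish hE (As x a f S i1 j1) (b + 2) ?_ (by omega)
    intro i hi j hj hij
    have hsub : As x a f S i1 j1 ⊆ S := filter_subset _ _
    have h1 : (Xs x f (As x a f S i1 j1) i j).card ≤ b := by
      refine le_trans (card_le_card ?_) (hb i (hsub hi) j (hsub hj) hij)
      exact filter_subset_filter _ hsub
    have h2 : (As x a f (As x a f S i1 j1) i j).card ≤ 2 := by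
      by_contra hcon
      push Not at hcon
      have h4 := h.shareA (i' := i1) (j' := j1) hE hij _ hcon (by
        intro k hk
        simp only [As, mem_filter] at hk
        exact ⟨hk.2, hk.1.2⟩) (x i) rfl
      simp only [As, mem_filter] at hi
      exact h.N i1 j1 hij1 i h4 hi.2
    omega
  · push Not at hbig
    refine h.finish hE S (b + (120 * (b + 4) + 1)) ?_ hS
    intro i hi j hj hij
    exact Nat.add_le_add (hb i hi j hj hij) (hbig i hi j hj hij)

/-- the number of indices is bounded by an absolute constant -/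
theorem Cfg.bound [Fintype ι] (hE : Module.finrank ℝ E = 3) (h : Cfg x a f) :
    Fintype.card ι ≤ 1263297960 := by
  classical
  by_contra hcon
  push Not at hcon
  by_cases hbig : ∃ i j, i ≠ j ∧ 87000 < (Xs x f univ i j).card
  · obtain ⟨i0, j0, hij0, hc⟩ := hbig
    refine h.stage2 hE (Xs x f univ i0 j0) 2 ?_ (by omega)
    intro i hi j hj hij
    by_contra hcon
    push Not at hcon
    have h4 := h.shareX (i' := i0) (j' := j0) hE hij _ hcon (by
      intro k hk
      simp only [Xs, mem_filter, mem_univ, true_and] at hk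
      exact ⟨hk.2, hk.1⟩) (a j) (h.e i j hij)
    simp only [Xs, mem_filter, mem_univ, true_and] at hj
    exact h.N i0 j0 hij0 j hj h4
  · push Not at hbig
    refine h.stage2 hE univ 87000 ?_ (by rw [card_univ]; omega)
    intro i _ j _ hij
    exact hbig i j hij

end Cfg

end Pool.Agent.K6.helper20.Illum
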